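import Mathlib

/-!
# A plastic `ℵ₁`-dense set of reals, in ZFC

There is an `ℵ₁`-dense set `X ⊆ ℝ` such that every injective non-expansive map `X → X`
is the identity; in particular `X` is plastic.  No extra axiom is used, so the set exists
under PFA as well.
-/

open Set Cardinal

namespace Pool.Agent.Results.MP_d907e7_lc.PlasticAlephOneDense

/-- `X` meets every nonempty open set in exactly `ℵ₁` points. -/
def AlephOneDense (X : Set ℝ) : Prop :=
  ∀ U : Set ℝ, IsOpen U → U.Nonempty → #(X ∩ U : Set ℝ) = Cardinal.aleph 1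

/-- A metric space is plastic if every non-expansive bijection of it is an isometry. -/
def Plastic (M : Type) [MetricSpace M] : Prop :=
  ∀ f : M → M, Function.Bijective f → (∀ x y, dist (f x) (f y) ≤ dist x y) → Isometry f

/-! ### coding -/

def enc : ℕ → (ℕ → ℕ) → ℕ
  | 0, a => Nat.pair (a 0) 0
  | K + 1, a => Nat.pair (a 0) (enc K (fun k => a (k + 1)))

def dec : ℕ → ℕ → ℕ
  | 0, n => (Nat.unpair n).1
  | k + 1, n => dec k (Nat.unpair n).2

lemma dec_enc (K : ℕ) : ∀ (k : ℕ) (a : ℕ → ℕ), k ≤ K → dec k (enc K a) = a k := by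
  induction K with
  | zero =>
    intro k a hk
    obtain rfl : k = 0 := by omega
    simp [enc, dec]
  | succ K ih =>
    intro k a hk
    cases k with
    | zero => simp [enc, dec]
    | succ k =>
      simp only [enc, dec, Nat.unpair_pair]
      exact ih k _ (by omega)

def EB : ℕ → ℕ → ℕ
  | 0, m => (m + 1) ^ 2
  | K + 1, m => (max m (EB K m) + 1) ^ 2

lemma enc_le (K : ℕ) : ∀ (a : ℕ → ℕ) (m : ℕ), (∀ k ≤ K, a k ≤ m) → enc K a ≤ EB K m := by
  induction K with
  | zero =>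
    intro a m h
    have h1 := Nat.pair_lt_max_add_one_sq (a 0) 0
    have h2 : (max (a 0) 0 + 1) ^ 2 ≤ (m + 1) ^ 2 :=
      Nat.pow_le_pow_left (by have := h 0 le_rfl; omega) 2
    simp only [enc, EB]
    omega
  | succ K ih =>
    intro a m h
    have h1 := Nat.pair_lt_max_add_one_sq (a 0) (enc K (fun k => a (k + 1)))
    have h0 := ih (fun k => a (k + 1)) m (fun k hk => h (k + 1) (by omega))
    have h2 : (max (a 0) (enc K (fun k => a (k + 1))) + 1) ^ 2 ≤ (max m (EB K m) + 1) ^ 2 :=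
      Nat.pow_le_pow_left (by have := h 0 (by omega); omega) 2
    simp only [enc, EB]
    omega

/-- The growth bound. -/
def H : ℕ → ℕ
  | 0 => 1
  | n + 1 => H n + ∑ K ∈ Finset.range (n + 1), EB K (H n)

lemma H_mono : Monotone H := by
  apply monotone_nat_of_le_succ
  intro n
  simp only [H]
  omega

lemma H_pos (n : ℕ) : 1 ≤ H n := by
  have := H_mono (Nat.zero_le n)
  simpa [H] using this

lemma EB_le_H {K m : ℕ} (h : K ≤ m) : EB K (H m) ≤ H (m + 1) := by
  have : EB K (H m) ≤ ∑ K ∈ Finset.range (m + 1), EB K (H m) :=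
    Finset.single_le_sum (f := fun K => EB K (H m)) (fun _ _ => Nat.zero_le _)
      (Finset.mem_range.2 (by omega))
  simp only [H]
  omega

/-- The space of sequences used. -/
def SS : Set (ℕ → ℕ) :=
  {x | (∀ i, x i ≤ H i) ∧ ∀ c, ∃ N, ∀ i, N ≤ i → x i ≤ H (i - 2 * c)}

/-- The projections. -/
def proj (k : ℕ) (s : List ℕ) (x : ℕ → ℕ) : ℕ → ℕ := fun i =>
  if i < s.length then s.getD i 0 else dec (k + 1) (x (i - 1))

lemma proj_agree {k : ℕ} {s : List ℕ} (hs : s ≠ []) {x x' : ℕ → ℕ} {i : ℕ}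
    (h : ∀ j < i, x j = x' j) : ∀ j ≤ i, proj k s x j = proj k s x' j := by
  intro j hj
  unfold proj
  split_ifs with h1
  · rfl
  · have : 0 < s.length := List.length_pos_iff.2 hs
    rw [h (j - 1) (by omega)]

section code

variable (y : ℕ → ℕ → ℕ)

def Good (c i : ℕ) : Prop :=
  ∀ i', i ≤ i' → (∀ k ≤ c, y k i' ≤ H (i' - 2 * (c + 1))) ∧ c + 2 ≤ i' - 2 * (c + 1)

lemma good_mono {c c' i : ℕ} (hc : c' ≤ c) (h : Good y c i) : Good y c' i := by
  intro i' hi'
  obtain ⟨h1, h2⟩ := h i' hi'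
  refine ⟨fun k hk => (h1 k (hk.trans hc)).trans (H_mono (by omega)), by omega⟩

lemma good_up {c i i' : ℕ} (hi : i ≤ i') (h : Good y c i) : Good y c i' :=
  fun j hj => h j (hi.trans hj)

lemma good_ev (hy : ∀ k, y k ∈ SS) (c : ℕ) : ∃ N, ∀ i, N ≤ i → Good y c i ∧ c ≤ i := by
  have : ∀ k, ∃ N, ∀ i, N ≤ i → y k i ≤ H (i - 2 * (c + 1)) := fun k => (hy k).2 (c + 1)
  choose N hN using this
  refine ⟨(Finset.range (c + 1)).sup N + (3 * c + 10), fun i hi => ⟨?_, by omega⟩⟩
  intro i' hi'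
  refine ⟨fun k hk => hN k i' ?_, by omega⟩
  have : N k ≤ (Finset.range (c + 1)).sup N :=
    Finset.le_sup (f := N) (Finset.mem_range.2 (by omega))
  omega

open Classical in
noncomputable def KK (i : ℕ) : ℕ := Nat.findGreatest (fun c => Good y c i) i

open Classical in
lemma KK_ge {c i : ℕ} (h : Good y c i) (hc : c ≤ i) : c ≤ KK y i := by
  unfold KK
  exact Nat.le_findGreatest hc h

open Classical in
lemma KK_good {i : ℕ} (h : Good y 0 i) : Good y (KK y i) i := by
  unfold KK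
  exact Nat.findGreatest_spec (P := fun c => Good y c i) (Nat.zero_le i) h

/-- The row to be encoded at place `i`. -/
def row (b : ℕ → ℕ) (i : ℕ) : ℕ → ℕ
  | 0 => b i
  | k + 1 => y k i

open Classical in
noncomputable def xx (b : ℕ → ℕ) (j : ℕ) : ℕ :=
  if Good y 0 (j + 1) then enc (KK y (j + 1) + 1) (row y b (j + 1)) else 0

lemma xx_bound (b : ℕ → ℕ) (hb : ∀ i, b i ≤ 1) (j : ℕ) (h : Good y 0 (j + 1)) :
    xx y b j ≤ H (j - 2 * KK y (j + 1)) := by
  have hG := KK_good y h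
  obtain ⟨h1, h2⟩ := hG (j + 1) le_rfl
  set K := KK y (j + 1) with hK
  have h3 : xx y b j = enc (K + 1) (row y b (j + 1)) := by
    unfold xx
    rw [if_pos h]
  rw [h3]
  have h4 : enc (K + 1) (row y b (j + 1)) ≤ EB (K + 1) (H (j + 1 - 2 * (K + 1))) := by
    apply enc_le
    intro k hk
    cases k with
    | zero => exact (hb _).trans (H_pos _)
    | succ k => exact h1 k (by omega)
  refine h4.trans ((EB_le_H (by omega)).trans (H_mono (by omega)))

lemma xx_mem (hy : ∀ k, y k ∈ SS) (b : ℕ → ℕ) (hb : ∀ i, b i ≤ 1) : xx y b ∈ SS := by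
  refine ⟨fun j => ?_, fun c => ?_⟩
  · by_cases h : Good y 0 (j + 1)
    · exact (xx_bound y b hb j h).trans (H_mono (by omega))
    · unfold xx
      rw [if_neg h]
      exact Nat.zero_le _
  · obtain ⟨N, hN⟩ := good_ev y hy c
    refine ⟨N, fun j hj => ?_⟩
    obtain ⟨h1, h2⟩ := hN (j + 1) (by omega)
    have h3 := KK_ge y h1 h2
    exact (xx_bound y b hb j (good_mono y (Nat.zero_le c) h1)).trans (H_mono (by omega))

lemma xx_code (hy : ∀ k, y k ∈ SS) (b : ℕ → ℕ) (k : ℕ) :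
    ∃ s : List ℕ, s ≠ [] ∧ y k = proj k s (xx y b) := by
  obtain ⟨N, hN⟩ := good_ev y hy k
  refine ⟨List.ofFn (fun i : Fin (N + 1) => y k i), ?_, ?_⟩
  · intro h
    have := congrArg List.length h
    simp at this
  · funext i
    unfold proj
    rw [List.length_ofFn]
    split_ifs with h
    · rw [List.getD_eq_getElem _ _ (by rw [List.length_ofFn]; exact h), List.getElem_ofFn]
    · obtain ⟨i, rfl⟩ : ∃ i', i = i' + 1 := ⟨i - 1, by omega⟩
      obtain ⟨h1, h2⟩ := hN (i + 1) (by omega)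
      have h3 := KK_ge y h1 h2
      have h4 : xx y b i = enc (KK y (i + 1) + 1) (row y b (i + 1)) := by
        unfold xx
        rw [if_pos (good_mono y (Nat.zero_le k) h1)]
      rw [Nat.add_sub_cancel, h4, dec_enc _ _ _ (by omega)]
      rfl

lemma xx_inj (hy : ∀ k, y k ∈ SS) :
    ∃ B : (ℕ → Bool) → (ℕ → ℕ), (∀ β i, B β i ≤ 1) ∧
      Function.Injective (fun β => xx y (B β)) := by
  obtain ⟨N, hN⟩ := good_ev y hy 0
  refine ⟨fun β i => if β (i - (N + 1)) then 1 else 0, fun β i => by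
    dsimp only; split_ifs <;> omega, ?_⟩
  intro β β' h
  funext m
  have h1 := (hN (N + m + 1) (by omega)).1
  have h2 := congrFun h (N + m)
  simp only [xx] at h2
  rw [if_pos h1, if_pos h1] at h2
  have h3 := congrArg (dec 0) h2
  rw [dec_enc _ _ _ (by omega), dec_enc _ _ _ (by omega)] at h3
  simp only [row] at h3
  have h4 : N + m + 1 - (N + 1) = m := by omega
  rw [h4] at h3
  cases hb : β m <;> cases hb' : β' m <;> simp_all

end code

/-! ### the embedding into the reals -/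

noncomputable def w : ℕ → ℝ
  | 0 => 1
  | i + 1 => w i / (8 * ((H (i + 1) : ℝ) + 1))

lemma w_pos (i : ℕ) : 0 < w i := by
  induction i with
  | zero => simp [w]
  | succ i ih => simp only [w]; positivity

lemma Hw_succ (i : ℕ) : (H (i + 1) : ℝ) * w (i + 1) ≤ w i / 8 := by
  have h1 := w_pos i
  have h2 : (0 : ℝ) ≤ H (i + 1) := Nat.cast_nonneg _
  simp only [w]
  rw [mul_div_assoc', div_le_div_iff₀ (by positivity) (by norm_num)]
  nlinarith

lemma w_succ_le (i : ℕ) : w (i + 1) ≤ w i / 8 := by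
  have h1 := Hw_succ i
  have h2 : (1 : ℝ) ≤ H (i + 1) := by exact_mod_cast H_pos (i + 1)
  have h3 := w_pos (i + 1)
  nlinarith

lemma w_add_le (i n : ℕ) : w (i + n) ≤ w i * (1 / 8) ^ n := by
  induction n with
  | zero => simp
  | succ n ih =>
    have h1 := w_succ_le (i + n)
    rw [← Nat.add_assoc, pow_succ]
    linarith

lemma Hw_tail (i n : ℕ) : (H (n + (i + 1)) : ℝ) * w (n + (i + 1)) ≤ w i / 8 * (1 / 8) ^ n := by
  have h1 := Hw_succ (i + n)
  have h2 := w_add_le i n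
  have h3 : n + (i + 1) = i + n + 1 := by omega
  rw [h3]
  linarith

lemma summable_of_bound {z : ℕ → ℝ} (hz : ∀ j, |z j| ≤ H j) :
    Summable (fun j => z j * w j) := by
  rw [← summable_nat_add_iff 1]
  refine Summable.of_norm_bounded (g := fun n => w 0 / 8 * (1 / 8 : ℝ) ^ n) ?_ ?_
  · exact (summable_geometric_of_lt_one (by norm_num) (by norm_num)).mul_left _
  · intro n
    rw [Real.norm_eq_abs, abs_mul, abs_of_pos (w_pos _)]
    have := Hw_tail 0 n
    exact (mul_le_mul_of_nonneg_right (hz _) (w_pos _).le).trans this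

lemma tail_bound {z : ℕ → ℝ} (hz : ∀ j, |z j| ≤ H j) (i : ℕ) (h0 : ∀ j ≤ i, z j = 0) :
    |∑' j, z j * w j| ≤ w i / 7 := by
  have hs := summable_of_bound hz
  have h1 := hs.sum_add_tsum_nat_add (i + 1)
  have h2 : ∑ j ∈ Finset.range (i + 1), z j * w j = 0 := by
    apply Finset.sum_eq_zero
    intro j hj
    rw [h0 j (by have := Finset.mem_range.1 hj; omega), zero_mul]
  rw [h2, zero_add] at h1
  rw [← h1]
  have hg : HasSum (fun n => w i / 8 * (1 / 8 : ℝ) ^ n) (w i / 7) := by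
    have := (hasSum_geometric_of_lt_one (r := (1 / 8 : ℝ)) (by norm_num) (by norm_num)).mul_left
      (w i / 8)
    have e : w i / 7 = w i / 8 * (1 - 1 / 8)⁻¹ := by norm_num; ring
    rw [e]
    exact this
  have := tsum_of_norm_bounded hg (f := fun n => z (n + (i + 1)) * w (n + (i + 1))) (by
    intro n
    rw [Real.norm_eq_abs, abs_mul, abs_of_pos (w_pos _)]
    exact (mul_le_mul_of_nonneg_right (hz _) (w_pos _).le).trans (Hw_tail i n))
  simpa [Real.norm_eq_abs] using this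

noncomputable def r (x : ℕ → ℕ) : ℝ := ∑' j, (x j : ℝ) * w j

lemma abs_sub_le' {x x' : ℕ → ℕ} (hx : ∀ i, x i ≤ H i) (hx' : ∀ i, x' i ≤ H i) (j : ℕ) :
    |(x j : ℝ) - x' j| ≤ H j := by
  have h1 : (x j : ℝ) ≤ H j := by exact_mod_cast hx j
  have h2 : (x' j : ℝ) ≤ H j := by exact_mod_cast hx' j
  have h3 : (0 : ℝ) ≤ x j := Nat.cast_nonneg _
  have h4 : (0 : ℝ) ≤ x' j := Nat.cast_nonneg _
  rw [abs_le]
  constructor <;> linarith

lemma r_sub {x x' : ℕ → ℕ} (hx : ∀ i, x i ≤ H i) (hx' : ∀ i, x' i ≤ H i) :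
    r x - r x' = ∑' j, ((x j : ℝ) - x' j) * w j := by
  unfold r
  have h1 : Summable (fun j => (x j : ℝ) * w j) := summable_of_bound (fun j => by
    rw [abs_of_nonneg (Nat.cast_nonneg _)]; exact_mod_cast hx j)
  have h2 : Summable (fun j => (x' j : ℝ) * w j) := summable_of_bound (fun j => by
    rw [abs_of_nonneg (Nat.cast_nonneg _)]; exact_mod_cast hx' j)
  rw [← h1.tsum_sub h2]
  congr 1
  funext j
  ring

lemma r_upper {x x' : ℕ → ℕ} (hx : ∀ i, x i ≤ H i) (hx' : ∀ i, x' i ≤ H i) (i : ℕ)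
    (h : ∀ j ≤ i, x j = x' j) : |r x - r x'| ≤ w i / 7 := by
  rw [r_sub hx hx']
  refine tail_bound (fun j => abs_sub_le' hx hx' j) i (fun j hj => ?_)
  rw [h j hj, sub_self]

lemma r_lower {x x' : ℕ → ℕ} (hx : ∀ i, x i ≤ H i) (hx' : ∀ i, x' i ≤ H i) (i : ℕ)
    (h : ∀ j < i, x j = x' j) (hne : x i ≠ x' i) : 6 * w i / 7 ≤ |r x - r x'| := by
  rw [r_sub hx hx']
  have hs : Summable (fun j => ((x j : ℝ) - x' j) * w j) :=
    summable_of_bound (fun j => abs_sub_le' hx hx' j)
  classical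
  have h1 : ∑' j, ((x j : ℝ) - x' j) * w j = ((x i : ℝ) - x' i) * w i
      + ∑' j, (if j = i then 0 else ((x j : ℝ) - x' j)) * w j := by
    rw [hs.tsum_eq_add_tsum_ite i]
    congr 2
    funext j
    split_ifs <;> simp
  have h2 : |∑' j, (if j = i then 0 else ((x j : ℝ) - x' j)) * w j| ≤ w i / 7 := by
    apply tail_bound
    · intro j
      split_ifs
      · simp
      · exact abs_sub_le' hx hx' j
    · intro j hj
      split_ifs with hji
      · rfl
      · rw [h j (by omega), sub_self]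
  have h3 : w i ≤ |((x i : ℝ) - x' i) * w i| := by
    rw [abs_mul, abs_of_pos (w_pos i)]
    have : (1 : ℝ) ≤ |(x i : ℝ) - x' i| := by
      have h5 : (1 : ℤ) ≤ |(x i : ℤ) - x' i| := Int.one_le_abs (by omega)
      exact_mod_cast h5
    nlinarith [w_pos i]
  rw [h1]
  have h4 := abs_sub_abs_le_abs_sub (((x i : ℝ) - x' i) * w i)
    (-∑' j, (if j = i then 0 else ((x j : ℝ) - x' j)) * w j)
  rw [abs_neg, sub_neg_eq_add] at h4
  linarith

lemma first_diff {x x' : ℕ → ℕ} (h : x ≠ x') :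
    ∃ i, (∀ j < i, x j = x' j) ∧ x i ≠ x' i := by
  classical
  have : ∃ i, x i ≠ x' i := by
    by_contra h'
    push Not at h'
    exact h (funext h')
  exact ⟨Nat.find this, fun j hj => not_not.1 (Nat.find_min this hj), Nat.find_spec this⟩

lemma r_contract {x x' : ℕ → ℕ} (hx : x ∈ SS) (hx' : x' ∈ SS) (hne : x ≠ x')
    {k : ℕ} {s : List ℕ} (hs : s ≠ []) (hy : proj k s x ∈ SS) (hy' : proj k s x' ∈ SS) :
    |r (proj k s x) - r (proj k s x')| < |r x - r x'| := by
  obtain ⟨i, hi, hi'⟩ := first_diff hne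
  have h1 := r_lower hx.1 hx'.1 i hi hi'
  have h2 := r_upper hy.1 hy'.1 i (proj_agree hs hi)
  have := w_pos i
  linarith

lemma r_inj {x x' : ℕ → ℕ} (hx : x ∈ SS) (hx' : x' ∈ SS) (h : r x = r x') : x = x' := by
  by_contra hne
  obtain ⟨i, hi, hi'⟩ := first_diff hne
  have h1 := r_lower hx.1 hx'.1 i hi hi'
  rw [h, sub_self, abs_zero] at h1
  have := w_pos i
  linarith

/-! ### the one-step extension -/

/-- The data attached to one point of the set. -/
abbrev Dat : Type := SS × ℚ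

noncomputable def pt (d : Dat) : ℝ := (d.2 : ℝ) + r d.1

lemma SS_nonempty : (fun _ => 0 : ℕ → ℕ) ∈ SS :=
  ⟨fun _ => Nat.zero_le _, fun _ => ⟨0, fun _ _ => Nat.zero_le _⟩⟩

lemma step {ι : Type} [Countable ι] (F : ι → Dat) (a b : ℝ) (hab : a < b) :
    ∃ d : Dat, (∀ η, ∃ k s, s ≠ [] ∧ ((F η).1 : ℕ → ℕ) = proj k s d.1) ∧
      (∀ η, pt (F η) ≠ pt d) ∧ pt d ∈ Ioo a b := by
  -- enumerate
  obtain ⟨y, hy, hyF⟩ : ∃ y : ℕ → ℕ → ℕ, (∀ k, y k ∈ SS) ∧
      ∀ η, ∃ k, ((F η).1 : ℕ → ℕ) = y k := by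
    rcases isEmpty_or_nonempty ι with hι | hι
    · exact ⟨fun _ _ => 0, fun _ => SS_nonempty, fun η => (hι.false η).elim⟩
    · obtain ⟨e, he⟩ := exists_surjective_nat ι
      refine ⟨fun k => (F (e k)).1, fun k => (F (e k)).1.2, fun η => ?_⟩
      obtain ⟨k, hk⟩ := he η
      exact ⟨k, by simp only [hk]⟩
  obtain ⟨B, hB1, hBinj⟩ := xx_inj y hy
  have hinj : Function.Injective (fun β => r (xx y (B β))) := by
    intro β β' h
    exact hBinj (r_inj (xx_mem y hy _ (hB1 β)) (xx_mem y hy _ (hB1 β')) h)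
  obtain ⟨β, hβ⟩ : ∃ β, ∀ (η : ι) (q : ℚ), r (xx y (B β)) ≠ pt (F η) - q := by
    by_contra hcon
    push Not at hcon
    have hcount : (range (fun β => r (xx y (B β)))).Countable := by
      refine (countable_range (fun p : ι × ℚ => pt (F p.1) - (p.2 : ℝ))).mono ?_
      rintro _ ⟨β, rfl⟩
      obtain ⟨η, q, h⟩ := hcon β
      exact ⟨(η, q), h.symm⟩
    have h2 : Countable (ℕ → Bool) := by
      have : Countable (range (fun β => r (xx y (B β)))) := hcount.to_subtype
      exact (Equiv.ofInjective _ hinj).injective.countable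
    have h3 : #(ℕ → Bool) ≤ ℵ₀ := Cardinal.mk_le_aleph0_iff.2 h2
    rw [← Cardinal.power_def, Cardinal.mk_bool, Cardinal.mk_nat] at h3
    exact absurd h3 (not_le.2 (Cardinal.cantor _))
  obtain ⟨q, hq1, hq2⟩ := exists_rat_btwn (show a - r (xx y (B β)) < b - r (xx y (B β)) by linarith)
  refine ⟨(⟨xx y (B β), xx_mem y hy _ (hB1 β)⟩, q), ?_, ?_, ?_⟩
  · intro η
    obtain ⟨k, hk⟩ := hyF η
    obtain ⟨s, hs, h⟩ := xx_code y hy (B β) k
    exact ⟨k, s, hs, hk.trans h⟩
  · intro η h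
    apply hβ η q
    rw [h]
    simp [pt]
  · simp only [pt, mem_Ioo]
    constructor <;> linarith

/-! ### the recursion -/

/-- The index set: a well order of type `ω₁`. -/
abbrev O : Type := (Ordinal.omega.{0} 1).ToType

instance countable_Iio (ξ : O) : Countable (Iio ξ) := by
  have h : #(Iio ξ) < #O := Cardinal.mk_Iio_lt ξ (by simp)
  have h2 : #O = Cardinal.aleph 1 := by simp
  rw [h2, ← Cardinal.succ_aleph0, Order.lt_succ_iff] at h
  exact Cardinal.mk_le_aleph0_iff.1 h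

lemma main_family (A B : O → ℝ) (hAB : ∀ ξ, A ξ < B ξ) :
    ∃ F : O → Dat, (∀ ξ η, η < ξ → ∃ k s, s ≠ [] ∧ ((F η).1 : ℕ → ℕ) = proj k s (F ξ).1) ∧
      (∀ ξ η, η < ξ → pt (F η) ≠ pt (F ξ)) ∧ ∀ ξ, pt (F ξ) ∈ Ioo (A ξ) (B ξ) := by
  have wf : WellFounded ((· < ·) : O → O → Prop) := wellFounded_lt
  let G : (ξ : O) → ((η : O) → η < ξ → Dat) → Dat := fun ξ ih =>
    Classical.choose (step (fun η : Iio ξ => ih η.1 η.2) (A ξ) (B ξ) (hAB ξ))
  let F : O → Dat := wf.fix G
  have hF : ∀ ξ, F ξ = G ξ (fun η _ => F η) := fun ξ => wf.fix_eq G ξ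
  have hsp : ∀ ξ, _ := fun ξ =>
    Classical.choose_spec (step (fun η : Iio ξ => F η.1) (A ξ) (B ξ) (hAB ξ))
  have hG : ∀ ξ, F ξ = Classical.choose (step (fun η : Iio ξ => F η.1) (A ξ) (B ξ) (hAB ξ)) := hF
  refine ⟨F, ?_, ?_, ?_⟩
  · intro ξ η h
    have := (hsp ξ).1 ⟨η, h⟩
    rw [← hG ξ] at this
    exact this
  · intro ξ η h
    have := (hsp ξ).2.1 ⟨η, h⟩
    rw [← hG ξ] at this
    exact this
  · intro ξ
    have := (hsp ξ).2.2
    rw [← hG ξ] at this
    exact this

/-- Every rational pair is attached to uncountably many indices. -/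
lemma exists_labels : Nonempty (O ≃ O × (ℚ × ℚ)) := by
  have : #O = #(O × (ℚ × ℚ)) := by
    have h1 : #(ℚ × ℚ) = ℵ₀ := Cardinal.mk_eq_aleph0 _
    have h2 : #O = Cardinal.aleph 1 := by simp
    rw [Cardinal.mk_prod, Cardinal.lift_id, Cardinal.lift_id, h1, h2]
    exact (Cardinal.mul_aleph0_eq (Cardinal.aleph0_le_aleph 1)).symm
  exact Cardinal.eq.1 this

/-! ### rigidity -/

lemma rigid (F : O → Dat)
    (hcode : ∀ ξ η, η < ξ → ∃ k s, s ≠ [] ∧ ((F η).1 : ℕ → ℕ) = proj k s (F ξ).1)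
    (hinj : Function.Injective (fun ξ => pt (F ξ)))
    (g : O → O) (hg : Function.Injective g)
    (hne : ∀ ξ η, |pt (F (g ξ)) - pt (F (g η))| ≤ |pt (F ξ) - pt (F η)|) :
    {ξ | g ξ ≠ ξ}.Countable := by
  set B : Set O := {ξ | ξ < g ξ} with hB
  have hBc : B.Countable := by
    have h1 : ∀ ξ : B, ∃ p : ℕ × List ℕ × ℚ × ℚ, p.2.1 ≠ [] ∧
        ((F ξ.1).1 : ℕ → ℕ) = proj p.1 p.2.1 (F (g ξ.1)).1 ∧ (F ξ.1).2 = p.2.2.1 ∧
        (F (g ξ.1)).2 = p.2.2.2 := by
      intro ξ
      obtain ⟨k, s, hs, h⟩ := hcode (g ξ.1) ξ.1 ξ.2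
      exact ⟨(k, s, (F ξ.1).2, (F (g ξ.1)).2), hs, h, rfl, rfl⟩
    choose P hP1 hP2 hP3 hP4 using h1
    have hPinj : Function.Injective P := by
      intro ξ η h
      by_contra hne'
      have hne2 : ξ.1 ≠ η.1 := fun h' => hne' (Subtype.ext h')
      have h2 := hne ξ.1 η.1
      have e1 : pt (F ξ.1) - pt (F η.1) = r (F ξ.1).1 - r (F η.1).1 := by
        simp only [pt]
        rw [hP3 ξ, hP3 η, h]
        ring
      have e2 : pt (F (g ξ.1)) - pt (F (g η.1)) = r (F (g ξ.1)).1 - r (F (g η.1)).1 := by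
        simp only [pt]
        rw [hP4 ξ, hP4 η, h]
        ring
      have hx : ((F (g ξ.1)).1 : ℕ → ℕ) ≠ (F (g η.1)).1 := by
        intro h'
        apply hne2
        apply hg
        apply hinj
        simp only [pt]
        rw [hP4 ξ, hP4 η, h, h']
      have m1 : proj (P ξ).1 (P ξ).2.1 (F (g ξ.1)).1 ∈ SS := by
        rw [← hP2 ξ]; exact (F ξ.1).1.2
      have m2 : proj (P ξ).1 (P ξ).2.1 (F (g η.1)).1 ∈ SS := by
        rw [h, ← hP2 η]; exact (F η.1).1.2
      have h3 := r_contract (F (g ξ.1)).1.2 (F (g η.1)).1.2 hx (hP1 ξ) m1 m2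
      rw [← hP2 ξ] at h3
      have h4 : proj (P ξ).1 (P ξ).2.1 (F (g η.1)).1 = (F η.1).1 := by
        rw [h, ← hP2 η]
      rw [h4, ← e1, ← e2] at h3
      linarith
    have : Countable B := hPinj.countable
    exact this.to_set
  have hD : (⋃ n : ℕ, (g^[n]) ⁻¹' B).Countable := by
    refine countable_iUnion (fun n => ?_)
    exact hBc.preimage_of_injOn (hg.iterate n).injOn
  refine hD.mono ?_
  intro ξ hξ
  by_contra hcon
  simp only [mem_iUnion, mem_preimage, not_exists] at hcon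
  have hle : ∀ n, g^[n + 1] ξ ≤ g^[n] ξ := by
    intro n
    have := hcon n
    rw [hB, Set.mem_ofPred_eq, not_lt] at this
    rw [Function.iterate_succ_apply']
    exact this
  obtain ⟨_, ⟨n, rfl⟩, hn⟩ := (wellFounded_lt (α := O)).has_min
    (range (fun n => g^[n] ξ)) ⟨_, ⟨0, rfl⟩⟩
  have h5 : g^[n + 1] ξ = g^[n] ξ :=
    le_antisymm (hle n) (not_lt.1 (hn _ ⟨n + 1, rfl⟩))
  rw [Function.iterate_succ_apply] at h5
  exact hξ ((hg.iterate n) h5)

/-- **Theorem.** There is an `ℵ₁`-dense set `X` of reals such that every injective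
non-expansive map `X → X` is the identity.  In particular `X` is plastic. -/
theorem result : ∃ X : Set ℝ, AlephOneDense X ∧ Plastic X ∧
    ∀ f : X → X, Function.Injective f → (∀ x y, dist (f x) (f y) ≤ dist x y) → f = id := by
  obtain ⟨e⟩ := exists_labels
  obtain ⟨F, hcode, hne, hI⟩ := main_family
    (fun ξ => if ((e ξ).2.1 : ℝ) < (e ξ).2.2 then (e ξ).2.1 else 0)
    (fun ξ => if ((e ξ).2.1 : ℝ) < (e ξ).2.2 then (e ξ).2.2 else 1)
    (fun ξ => by split_ifs with h; exact h; norm_num)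
  have hinj : Function.Injective (fun ξ => pt (F ξ)) := by
    intro ξ η h
    rcases lt_trichotomy ξ η with h1 | h1 | h1
    · exact absurd h (hne η ξ h1)
    · exact h1
    · exact absurd h.symm (hne ξ η h1)
  set X : Set ℝ := range (fun ξ => pt (F ξ)) with hX
  have hO : #O = Cardinal.aleph 1 := by simp
  have hXcard : #X = Cardinal.aleph 1 := by
    rw [hX, Cardinal.mk_range_eq _ hinj, hO]
  -- uncountably many points with a given label
  have hlab : ∀ p : ℚ × ℚ, #{ξ : O | (e ξ).2 = p} = Cardinal.aleph 1 := by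
    intro p
    apply le_antisymm
    · exact (Cardinal.mk_set_le _).trans hO.le
    · rw [← hO]
      refine Cardinal.mk_le_of_injective (f := fun ζ : O =>
        (⟨e.symm (ζ, p), by simp⟩ : {ξ : O | (e ξ).2 = p})) ?_
      intro ζ ζ' h
      have := congrArg Subtype.val h
      simpa using this
  have hdense : AlephOneDense X := by
    intro U hU hUne
    apply le_antisymm
    · exact (Cardinal.mk_le_mk_of_subset inter_subset_left).trans hXcard.le
    · obtain ⟨u, hu⟩ := hUne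
      obtain ⟨ε, hε, hball⟩ := Metric.isOpen_iff.1 hU u hu
      obtain ⟨a, ha1, ha2⟩ := exists_rat_btwn (show u - ε < u by linarith)
      obtain ⟨b, hb1, hb2⟩ := exists_rat_btwn (show u < u + ε by linarith)
      rw [← hlab (a, b)]
      refine Cardinal.mk_le_of_injective (f := fun ξ : {ξ : O | (e ξ).2 = (a, b)} =>
        (⟨pt (F ξ.1), ⟨ξ.1, rfl⟩, ?_⟩ : (X ∩ U : Set ℝ))) ?_
      · have h1 := hI ξ.1
        have h2 : (e ξ.1).2 = (a, b) := ξ.2
        rw [h2] at h1
        rw [if_pos (by linarith), if_pos (by linarith)] at h1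
        apply hball
        rw [Metric.mem_ball, Real.dist_eq, abs_lt]
        constructor <;> linarith [h1.1, h1.2]
      · intro ξ η h
        have := congrArg Subtype.val h
        exact Subtype.ext (hinj this)
  have hrigid : ∀ f : X → X, Function.Injective f →
      (∀ x y, dist (f x) (f y) ≤ dist x y) → f = id := by
    intro f hf hfd
    have hP : ∀ x : X, ∃ ξ : O, pt (F ξ) = x := fun x => x.2
    have hg : ∀ ξ : O, ∃ η : O, pt (F η) = f ⟨pt (F ξ), ⟨ξ, rfl⟩⟩ := fun ξ => hP _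
    choose g hg using hg
    have hginj : Function.Injective g := by
      intro ξ η h
      have h1 := hg ξ
      rw [h, hg η] at h1
      have h2 := hf (Subtype.ext h1)
      exact (hinj (congrArg Subtype.val h2)).symm
    have hcount := rigid F hcode hinj g hginj (by
      intro ξ η
      have := hfd ⟨pt (F ξ), ⟨ξ, rfl⟩⟩ ⟨pt (F η), ⟨η, rfl⟩⟩
      rw [Subtype.dist_eq, Subtype.dist_eq, Real.dist_eq, Real.dist_eq] at this
      rw [hg, hg]
      exact this)
    have hcont : Continuous f := by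
      have : LipschitzWith 1 f := LipschitzWith.of_dist_le_mul (by
        intro x y
        simpa using hfd x y)
      exact this.continuous
    -- the fixed points are dense
    have hD : Dense {x : X | f x = x} := by
      rw [dense_iff_inter_open]
      intro V hV hVne
      obtain ⟨U, hU, rfl⟩ := isOpen_induced_iff.1 hV
      obtain ⟨v, hv⟩ := hVne
      have hU1 := hdense U hU ⟨v.1, hv⟩
      by_contra hcon
      have hsub : (X ∩ U) ⊆ (fun ξ => pt (F ξ)) '' {ξ | g ξ ≠ ξ} := by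
        rintro _ ⟨⟨ξ, rfl⟩, hx⟩
        refine ⟨ξ, ?_, rfl⟩
        intro hgx
        apply hcon
        refine ⟨⟨pt (F ξ), ⟨ξ, rfl⟩⟩, hx, ?_⟩
        have := hg ξ
        rw [hgx] at this
        exact Subtype.ext this.symm
      have h2 : (X ∩ U).Countable := (hcount.image _).mono hsub
      have h3 : #(X ∩ U : Set ℝ) ≤ ℵ₀ := Cardinal.mk_le_aleph0_iff.2 h2.to_subtype
      rw [hU1] at h3
      exact absurd h3 (not_le.2 Cardinal.aleph0_lt_aleph_one)
    funext x
    exact congrFun (hcont.ext_on hD continuous_id (fun x hx => hx)) x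
  refine ⟨X, hdense, ?_, hrigid⟩
  intro f hf hfd
  rw [hrigid f hf.1 hfd]
  exact isometry_id

end Pool.Agent.Results.MP_d907e7_lc.PlasticAlephOneDense
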