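import Mathlib
import Pool.Agent.Helper647.FU.J8

/-!
# Small dense subgroups of the reals are not plastic

If `X` is a dense subgroup of `ℝ` with `|X| < cov(M)`, then `X` carries a bijective
non-expansive self-map that is not an isometry.  In particular, under PFA no `ℵ₁`-dense
subgroup of `ℝ` is plastic.
-/

open Set Cardinal

namespace Pool.Agent.Results.MP_d907e7_lc.SubgroupsNotPlastic

/-- `X` meets every nonempty open set in exactly `ℵ₁` points. -/
def AlephOneDense (X : Set ℝ) : Prop :=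
  ∀ U : Set ℝ, IsOpen U → U.Nonempty → #(X ∩ U : Set ℝ) = Cardinal.aleph 1

/-- A metric space is plastic if every non-expansive bijection of it is an isometry. -/
def Plastic (M : Type) [MetricSpace M] : Prop :=
  ∀ f : M → M, Function.Bijective f → (∀ x y, dist (f x) (f y) ≤ dist x y) → Isometry f

/-- The index type `ι` is smaller than `cov(M)`: the Baire space is not covered by
`ι` many closed nowhere dense sets. -/
def LtCovM (ι : Type) : Prop :=
  ∀ U : ι → Set (ℕ → ℕ), (∀ i, IsOpen (U i) ∧ Dense (U i)) → (⋂ i, U i).Nonempty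

/-! ### generic sequences for countable posets -/

section seq

variable {P : Type} [PartialOrder P] (e : ℕ → P)

open Classical in
noncomputable def seq (z : ℕ → ℕ) : ℕ → P
  | 0 => e 0
  | n + 1 => if e (z n) ≤ seq z n then e (z n) else seq z n

lemma seq_anti (z : ℕ → ℕ) : Antitone (seq e z) := by
  apply antitone_nat_of_succ_le
  intro n
  simp only [seq]
  split_ifs with h
  · exact h
  · exact le_rfl

lemma seq_congr {z z' : ℕ → ℕ} (n : ℕ) (h : ∀ j < n, z j = z' j) : seq e z n = seq e z' n := by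
  induction n with
  | zero => rfl
  | succ n ih =>
    have := ih (fun j hj => h j (by omega))
    simp only [seq]
    rw [this, h n (by omega)]

lemma seq_open (D : Set P) : IsOpen {z : ℕ → ℕ | ∃ n, seq e z n ∈ D} := by
  classical
  let _i : TopologicalSpace P := ⊥
  have hdisc : DiscreteTopology P := ⟨rfl⟩
  have hc : ∀ n, Continuous (fun z : ℕ → ℕ => seq e z n) := by
    intro n
    induction n with
    | zero => exact continuous_const
    | succ n ih =>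
      have : (fun z : ℕ → ℕ => seq e z (n + 1)) =
          (fun q : ℕ × P => if e q.1 ≤ q.2 then e q.1 else q.2) ∘ (fun z => (z n, seq e z n)) := by
        funext z
        simp only [seq, Function.comp]
      rw [this]
      exact continuous_of_discreteTopology.comp ((continuous_apply n).prodMk ih)
  have : {z : ℕ → ℕ | ∃ n, seq e z n ∈ D} = ⋃ n, (fun z : ℕ → ℕ => seq e z n) ⁻¹' D := by
    ext z
    simp
  rw [this]
  exact isOpen_iUnion (fun n => (isOpen_discrete D).preimage (hc n))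

lemma seq_dense (he : Function.Surjective e) (D : Set P) (hD : ∀ p, ∃ q ∈ D, q ≤ p) :
    Dense {z : ℕ → ℕ | ∃ n, seq e z n ∈ D} := by
  intro z
  have h1 : ∀ N, ∃ m, e m ∈ D ∧ e m ≤ seq e z N := by
    intro N
    obtain ⟨q, hq, hle⟩ := hD (seq e z N)
    obtain ⟨m, rfl⟩ := he q
    exact ⟨m, hq, hle⟩
  choose m hm1 hm2 using h1
  let z' : ℕ → ℕ → ℕ := fun N => Function.update z N (m N)
  have hlim : Filter.Tendsto z' Filter.atTop (nhds z) := by
    rw [tendsto_pi_nhds]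
    intro j
    apply tendsto_const_nhds.congr'
    filter_upwards [Filter.eventually_gt_atTop j] with N hN
    simp only [z']
    rw [Function.update_of_ne (by omega)]
  apply mem_closure_of_tendsto hlim
  apply Filter.Eventually.of_forall
  intro N
  refine ⟨N + 1, ?_⟩
  have h2 : seq e (z' N) N = seq e z N := seq_congr e N (fun j hj => by
    simp only [z']
    rw [Function.update_of_ne (by omega)])
  have h3 : z' N N = m N := by simp [z']
  simp only [seq]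
  rw [h2, h3, if_pos (hm2 N)]
  exact hm1 N

end seq

lemma exists_chain {ι : Type} (h : LtCovM ι) (P : Type) [PartialOrder P] [Countable P]
    [Nonempty P] (D : ι → Set P) (hD : ∀ i p, ∃ q ∈ D i, q ≤ p) :
    ∃ c : ℕ → P, Antitone c ∧ ∀ i, ∃ n, c n ∈ D i := by
  obtain ⟨e, he⟩ := exists_surjective_nat P
  obtain ⟨z, hz⟩ := h (fun i => {z : ℕ → ℕ | ∃ n, seq e z n ∈ D i})
    (fun i => ⟨seq_open e (D i), seq_dense e he (D i) (hD i)⟩)
  exact ⟨seq e z, seq_anti e z, fun i => mem_iInter.1 hz i⟩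

/-! ### the poset -/

section poset

variable (D : Set ℝ)

/-- A triple `(a, b, c)`: on `[a, b]` the map is the translation by `c`. -/
abbrev T : Type := ℚ × ℚ × D

variable {D}

def Before (u v : T D) : Prop :=
  (u.2.1 : ℝ) < v.1 ∧ (v.2.2 : ℝ) < u.2.2 ∧ (u.2.1 : ℝ) + u.2.2 < v.1 + v.2.2

def Cond (p : Finset (T D)) : Prop :=
  (∀ u ∈ p, (u.1 : ℝ) ≤ u.2.1) ∧ ∀ u ∈ p, ∀ v ∈ p, u = v ∨ Before u v ∨ Before v u

def PP (p₀ : Finset (T D)) : Type := {p : Finset (T D) // Cond p ∧ p₀ ⊆ p}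

instance (p₀ : Finset (T D)) : PartialOrder (PP p₀) where
  le q p := p.1 ⊆ q.1
  le_refl p := Finset.Subset.refl _
  le_trans a b c h1 h2 := Finset.Subset.trans h2 h1
  le_antisymm a b h1 h2 := Subtype.ext (Finset.Subset.antisymm h2 h1)

lemma extend (p : Finset (T D)) (hp : Cond p) (x : ℝ) (c : D)
    (h : ∀ u ∈ p, ((u.2.1 : ℝ) < x ∧ (c : ℝ) < u.2.2 ∧ (u.2.1 : ℝ) + u.2.2 < x + c) ∨
      (x < u.1 ∧ (u.2.2 : ℝ) < c ∧ x + c < u.1 + u.2.2)) :
    ∃ v : T D, Cond (insert v p) ∧ (v.1 : ℝ) ≤ x ∧ x ≤ v.2.1 ∧ v.2.2 = c := by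
  classical
  have h1 : ∀ᶠ ε in nhdsWithin (0 : ℝ) (Ioi 0), ∀ u ∈ p,
      ((u.2.1 : ℝ) + ε < x ∧ (c : ℝ) < u.2.2 ∧ (u.2.1 : ℝ) + u.2.2 + ε < x + c) ∨
      (x + ε < u.1 ∧ (u.2.2 : ℝ) < c ∧ x + c + ε < u.1 + u.2.2) := by
    rw [Filter.eventually_all_finset]
    intro u hu
    rcases h u hu with ⟨h1, h2, h3⟩ | ⟨h1, h2, h3⟩
    · have hδ : 0 < min (x - u.2.1) (x + c - (u.2.1 + u.2.2)) := lt_min (by linarith) (by linarith)
      filter_upwards [Ioo_mem_nhdsGT hδ] with ε hε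
      have e1 := lt_of_lt_of_le hε.2 (min_le_left _ _)
      have e2 := lt_of_lt_of_le hε.2 (min_le_right _ _)
      left
      exact ⟨by linarith, h2, by linarith⟩
    · have hδ : 0 < min (u.1 - x) (u.1 + u.2.2 - (x + c)) := lt_min (by linarith) (by linarith)
      filter_upwards [Ioo_mem_nhdsGT hδ] with ε hε
      have e1 := lt_of_lt_of_le hε.2 (min_le_left _ _)
      have e2 := lt_of_lt_of_le hε.2 (min_le_right _ _)
      right
      exact ⟨by linarith, h2, by linarith⟩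
  obtain ⟨ε, hε, hε0⟩ := (h1.and self_mem_nhdsWithin).exists
  obtain ⟨a, ha1, ha2⟩ := exists_rat_btwn (show x - ε < x by linarith)
  obtain ⟨b, hb1, hb2⟩ := exists_rat_btwn (show x < x + ε by linarith)
  have key : ∀ u ∈ p, Before u (a, b, c) ∨ Before (a, b, c) u := by
    intro u hu
    rcases hε u hu with ⟨h1, h2, h3⟩ | ⟨h1, h2, h3⟩
    · left
      refine ⟨?_, h2, ?_⟩
      · show (u.2.1 : ℝ) < (a : ℝ)
        linarith
      · show (u.2.1 : ℝ) + u.2.2 < (a : ℝ) + c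
        linarith
    · right
      refine ⟨?_, h2, ?_⟩
      · show (b : ℝ) < u.1
        linarith
      · show (b : ℝ) + c < u.1 + u.2.2
        linarith
  refine ⟨(a, b, c), ⟨?_, ?_⟩, ha2.le, hb1.le, rfl⟩
  · intro u hu
    rcases Finset.mem_insert.1 hu with rfl | hu
    · show (a : ℝ) ≤ b
      linarith
    · exact hp.1 u hu
  · intro u hu v hv
    rcases Finset.mem_insert.1 hu with rfl | hu'
    · rcases Finset.mem_insert.1 hv with rfl | hv'
      · exact Or.inl rfl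
      · rcases key v hv' with h | h
        · exact Or.inr (Or.inr h)
        · exact Or.inr (Or.inl h)
    · rcases Finset.mem_insert.1 hv with rfl | hv'
      · exact Or.inr (key u hu')
      · exact hp.2 u hu' v hv'

lemma between (hD : Dense D) (lo hi : Finset ℝ) (h : ∀ x ∈ lo, ∀ y ∈ hi, x < y) :
    ∃ c ∈ D, (∀ x ∈ lo, x < c) ∧ ∀ y ∈ hi, c < y := by
  classical
  obtain ⟨m, hm1, hm2⟩ := Order.exists_between_finsets lo hi h
  obtain ⟨m', hm1', hm2'⟩ := Order.exists_between_finsets (insert m lo) hi (by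
    intro x hx y hy
    rcases Finset.mem_insert.1 hx with rfl | hx
    · exact hm2 y hy
    · exact h x hx y hy)
  obtain ⟨c, hc, hcm, hcm'⟩ := hD.exists_between (hm1' m (Finset.mem_insert_self _ _))
  exact ⟨c, hc, fun x hx => (hm1 x hx).trans hcm, fun y hy => hcm'.trans (hm2' y hy)⟩

variable {p₀ : Finset (T D)}

def Dx (p₀ : Finset (T D)) (x : ℝ) : Set (PP p₀) :=
  {p | ∃ u ∈ p.1, (u.1 : ℝ) ≤ x ∧ x ≤ u.2.1}

def Dy (p₀ : Finset (T D)) (y : ℝ) : Set (PP p₀) :=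
  {p | ∃ u ∈ p.1, (u.1 : ℝ) ≤ y - u.2.2 ∧ y - u.2.2 ≤ u.2.1}

lemma Dx_dense (hD : Dense D) (x : ℝ) (p : PP p₀) : ∃ q ∈ Dx p₀ x, q ≤ p := by
  classical
  by_cases hx : p ∈ Dx p₀ x
  · exact ⟨p, hx, le_rfl⟩
  have hLR : ∀ u ∈ p.1, (u.2.1 : ℝ) < x ∨ x < u.1 := by
    intro u hu
    by_contra hcon
    push Not at hcon
    exact hx ⟨u, hu, hcon.2, hcon.1⟩
  obtain ⟨hp1, hp2⟩ := p.2.1
  let L := p.1.filter (fun u => (u.2.1 : ℝ) < x)
  let R := p.1.filter (fun u => x < (u.1 : ℝ))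
  obtain ⟨c, hc, hlo, hhi⟩ := between hD
    (L.image (fun u => (u.2.1 : ℝ) + u.2.2 - x) ∪ R.image (fun u => (u.2.2 : ℝ)))
    (L.image (fun u => (u.2.2 : ℝ)) ∪ R.image (fun u => (u.1 : ℝ) + u.2.2 - x)) (by
      intro s hs t ht
      rw [Finset.mem_union, Finset.mem_image, Finset.mem_image] at hs ht
      rcases hs with ⟨u, hu, rfl⟩ | ⟨u, hu, rfl⟩ <;> rcases ht with ⟨v, hv, rfl⟩ | ⟨v, hv, rfl⟩
      all_goals
        rw [Finset.mem_filter] at hu hv
        obtain ⟨hu, hu'⟩ := hu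
        obtain ⟨hv, hv'⟩ := hv
        have a1 := hp1 u hu
        have a2 := hp1 v hv
        rcases hp2 u hu v hv with rfl | ⟨h1, h2, h3⟩ | ⟨h1, h2, h3⟩ <;> linarith)
  obtain ⟨v, hv, hv1, hv2, -⟩ := extend p.1 p.2.1 x ⟨c, hc⟩ (by
    intro u hu
    rcases hLR u hu with h | h
    · have hm : u ∈ L := Finset.mem_filter.2 ⟨hu, h⟩
      have e1 := hlo _ (Finset.mem_union_left _ (Finset.mem_image_of_mem _ hm))
      have e2 := hhi _ (Finset.mem_union_left _ (Finset.mem_image_of_mem _ hm))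
      left
      exact ⟨h, e2, by show _ < x + c; linarith⟩
    · have hm : u ∈ R := Finset.mem_filter.2 ⟨hu, h⟩
      have e1 := hlo _ (Finset.mem_union_right _ (Finset.mem_image_of_mem _ hm))
      have e2 := hhi _ (Finset.mem_union_right _ (Finset.mem_image_of_mem _ hm))
      right
      exact ⟨h, e1, by show x + c < _; linarith⟩)
  exact ⟨⟨insert v p.1, hv, p.2.2.trans (Finset.subset_insert _ _)⟩,
    ⟨v, Finset.mem_insert_self _ _, hv1, hv2⟩, Finset.subset_insert _ _⟩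

lemma Dy_dense (hD : Dense D) (y : ℝ) (p : PP p₀) : ∃ q ∈ Dy p₀ y, q ≤ p := by
  classical
  by_cases hy : p ∈ Dy p₀ y
  · exact ⟨p, hy, le_rfl⟩
  have hLR : ∀ u ∈ p.1, (u.2.1 : ℝ) < y - u.2.2 ∨ y - u.2.2 < u.1 := by
    intro u hu
    by_contra hcon
    push Not at hcon
    exact hy ⟨u, hu, hcon.2, hcon.1⟩
  obtain ⟨hp1, hp2⟩ := p.2.1
  let L := p.1.filter (fun u => (u.2.1 : ℝ) < y - u.2.2)
  let R := p.1.filter (fun u => y - u.2.2 < (u.1 : ℝ))
  obtain ⟨c, hc, hlo, hhi⟩ := between hD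
    (R.image (fun u => (u.2.2 : ℝ))) (L.image (fun u => (u.2.2 : ℝ))) (by
      intro s hs t ht
      rw [Finset.mem_image] at hs ht
      obtain ⟨u, hu, rfl⟩ := hs
      obtain ⟨v, hv, rfl⟩ := ht
      rw [Finset.mem_filter] at hu hv
      obtain ⟨hu, hu'⟩ := hu
      obtain ⟨hv, hv'⟩ := hv
      have a1 := hp1 u hu
      have a2 := hp1 v hv
      rcases hp2 u hu v hv with rfl | ⟨h1, h2, h3⟩ | ⟨h1, h2, h3⟩ <;> linarith)
  obtain ⟨v, hv, hv1, hv2, hv3⟩ := extend p.1 p.2.1 (y - c) ⟨c, hc⟩ (by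
    intro u hu
    rcases hLR u hu with h | h
    · have hm : u ∈ L := Finset.mem_filter.2 ⟨hu, h⟩
      have e2 := hhi _ (Finset.mem_image_of_mem _ hm)
      left
      exact ⟨by linarith, e2, by show _ < y - c + c; linarith⟩
    · have hm : u ∈ R := Finset.mem_filter.2 ⟨hu, h⟩
      have e1 := hlo _ (Finset.mem_image_of_mem _ hm)
      right
      exact ⟨by linarith, e1, by show y - c + c < _; linarith⟩)
  refine ⟨⟨insert v p.1, hv, p.2.2.trans (Finset.subset_insert _ _)⟩,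
    ⟨v, Finset.mem_insert_self _ _, ?_, ?_⟩, Finset.subset_insert _ _⟩
  · rw [hv3]; exact hv1
  · rw [hv3]; exact hv2

end poset

/-! ### from a generic set to the map -/

lemma not_plastic_of_generic (X : AddSubgroup ℝ) {D : Set ℝ} (hDX : D ⊆ X)
    (hXd : Dense (X : Set ℝ)) (c₀ c₁ : D) (hc₀ : (c₀ : ℝ) = 0) (hc₁ : (c₁ : ℝ) < 0)
    (G : Set (PP ({(0, 0, c₀), (1, 1, c₁)} : Finset (T D))))
    (hdir : ∀ p ∈ G, ∀ q ∈ G, ∃ r ∈ G, r ≤ p ∧ r ≤ q)
    (hx : ∀ x : (X : Set ℝ), ∃ p ∈ G, p ∈ Dx _ (x : ℝ))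
    (hy : ∀ x : (X : Set ℝ), ∃ p ∈ G, p ∈ Dy _ (x : ℝ)) :
    ¬ Plastic ((X : Set ℝ) : Type) := by
  classical
  -- any two triples occurring in `G` are comparable
  have hcomp : ∀ p ∈ G, ∀ q ∈ G, ∀ u ∈ p.1, ∀ v ∈ q.1, u = v ∨ Before u v ∨ Before v u := by
    intro p hp q hq u hu v hv
    obtain ⟨r, hr, hrp, hrq⟩ := hdir p hp q hq
    exact r.2.1.2 u (hrp hu) v (hrq hv)
  have hsel : ∀ x : (X : Set ℝ), ∃ u : T D, (∃ p ∈ G, u ∈ p.1) ∧ (u.1 : ℝ) ≤ x ∧ (x : ℝ) ≤ u.2.1 := by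
    intro x
    obtain ⟨p, hp, u, hu, h1, h2⟩ := hx x
    exact ⟨u, ⟨p, hp, hu⟩, h1, h2⟩
  choose U hU hU1 hU2 using hsel
  have huniq : ∀ (x : (X : Set ℝ)) (v : T D), (∃ p ∈ G, v ∈ p.1) → (v.1 : ℝ) ≤ x →
      (x : ℝ) ≤ v.2.1 → U x = v := by
    rintro x v ⟨q, hq, hv⟩ h1 h2
    obtain ⟨p, hp, hu⟩ := hU x
    rcases hcomp p hp q hq _ hu v hv with h | h | h
    · exact h
    · have := h.1; linarith [hU1 x, hU2 x]
    · have := h.1; linarith [hU1 x, hU2 x]
  let f : ((X : Set ℝ) : Type) → ((X : Set ℝ) : Type) := fun x =>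
    ⟨(x : ℝ) + (U x).2.2, X.add_mem x.2 (hDX (U x).2.2.2)⟩
  have hmono : ∀ x y : (X : Set ℝ), (x : ℝ) < y →
      (f x : ℝ) < f y ∧ (f y : ℝ) - f x ≤ y - x := by
    intro x y hxy
    obtain ⟨p, hp, hu⟩ := hU x
    obtain ⟨q, hq, hv⟩ := hU y
    show (x : ℝ) + (U x).2.2 < y + (U y).2.2 ∧
      (y : ℝ) + (U y).2.2 - (x + (U x).2.2) ≤ y - x
    rcases hcomp p hp q hq _ hu _ hv with h | ⟨h1, h2, h3⟩ | ⟨h1, h2, h3⟩
    · rw [h]
      constructor <;> linarith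
    · constructor <;> linarith [hU1 x, hU2 x, hU1 y, hU2 y]
    · exfalso
      linarith [hU1 x, hU2 x, hU1 y, hU2 y]
  have hinj : Function.Injective f := by
    intro x y h
    rcases lt_trichotomy (x : ℝ) y with h1 | h1 | h1
    · have := (hmono x y h1).1
      rw [h] at this
      exact absurd this (lt_irrefl _)
    · exact Subtype.ext h1
    · have := (hmono y x h1).1
      rw [h] at this
      exact absurd this (lt_irrefl _)
  have hsurj : Function.Surjective f := by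
    intro y
    obtain ⟨p, hp, u, hu, h1, h2⟩ := hy y
    refine ⟨⟨(y : ℝ) - u.2.2, X.sub_mem y.2 (hDX u.2.2.2)⟩, ?_⟩
    apply Subtype.ext
    show (y : ℝ) - u.2.2 + (U ⟨(y : ℝ) - u.2.2, _⟩).2.2 = y
    rw [huniq ⟨(y : ℝ) - u.2.2, X.sub_mem y.2 (hDX u.2.2.2)⟩ u ⟨p, hp, hu⟩ h1 h2]
    ring
  have hdist : ∀ x y, dist (f x) (f y) ≤ dist x y := by
    intro x y
    rw [Subtype.dist_eq, Subtype.dist_eq, Real.dist_eq, Real.dist_eq]
    rcases lt_trichotomy (x : ℝ) y with h1 | h1 | h1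
    · obtain ⟨a1, a2⟩ := hmono x y h1
      rw [abs_of_neg (by linarith), abs_of_neg (by linarith)]
      linarith
    · rw [Subtype.ext h1]
      simp
    · obtain ⟨a1, a2⟩ := hmono y x h1
      rw [abs_of_pos (by linarith), abs_of_pos (by linarith)]
      linarith
  intro hpl
  have hiso := hpl f ⟨hinj, hsurj⟩ hdist
  -- the values at `0` and at some `x > 1`
  obtain ⟨x, hxX, hx1, -⟩ := hXd.exists_between (show (1 : ℝ) < 2 by norm_num)
  have h0 : (0 : ℝ) ∈ (X : Set ℝ) := X.zero_mem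
  obtain ⟨p, hp, hu⟩ := hU ⟨x, hxX⟩
  have hf0 : (f ⟨0, h0⟩ : ℝ) = 0 := by
    show (0 : ℝ) + (U ⟨0, h0⟩).2.2 = 0
    rw [huniq ⟨0, h0⟩ (0, 0, c₀) ⟨p, hp, p.2.2 (by simp)⟩ (by simp) (by simp)]
    show (0 : ℝ) + c₀ = 0
    rw [hc₀, add_zero]
  have hfx : (f ⟨x, hxX⟩ : ℝ) < x ∧ 0 < (f ⟨x, hxX⟩ : ℝ) := by
    constructor
    · show x + (U ⟨x, hxX⟩).2.2 < x
      have hU2' : x ≤ (U ⟨x, hxX⟩).2.1 := hU2 ⟨x, hxX⟩
      have hU1' : ((U ⟨x, hxX⟩).1 : ℝ) ≤ x := hU1 ⟨x, hxX⟩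
      have hm : ((1, 1, c₁) : T D) ∈ p.1 := p.2.2 (by simp)
      rcases hcomp p hp p hp _ hm _ hu with h | ⟨h1, h2, h3⟩ | ⟨h1, h2, h3⟩
      · rw [← h] at hU2'
        have : x ≤ ((1 : ℚ) : ℝ) := hU2'
        rw [Rat.cast_one] at this
        linarith
      · have h2' : ((U ⟨x, hxX⟩).2.2 : ℝ) < c₁ := h2
        linarith
      · have h1' : ((U ⟨x, hxX⟩).2.1 : ℝ) < ((1 : ℚ) : ℝ) := h1
        rw [Rat.cast_one] at h1'
        linarith
    · have := (hmono ⟨0, h0⟩ ⟨x, hxX⟩ (by show (0 : ℝ) < x; linarith)).1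
      rw [hf0] at this
      exact this
  have h := hiso.dist_eq ⟨x, hxX⟩ ⟨0, h0⟩
  rw [Subtype.dist_eq, Subtype.dist_eq, Real.dist_eq, Real.dist_eq, hf0] at h
  simp only [sub_zero] at h
  rw [abs_of_pos hfx.2, abs_of_pos (by linarith)] at h
  linarith [hfx.1]

/-- The countable dense set of translations and the initial condition. -/
lemma exists_start (X : AddSubgroup ℝ) (hXd : Dense (X : Set ℝ)) :
    ∃ D : Set ℝ, D ⊆ X ∧ D.Countable ∧ Dense D ∧ ∃ c₀ c₁ : D, (c₀ : ℝ) = 0 ∧ (c₁ : ℝ) < 0 ∧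
      Nonempty (PP ({(0, 0, c₀), (1, 1, c₁)} : Finset (T D))) := by
  classical
  obtain ⟨E, hEc, hEd⟩ := TopologicalSpace.exists_countable_dense ((X : Set ℝ) : Type)
  have hE : Dense (Subtype.val '' E : Set ℝ) :=
    (show DenseRange (Subtype.val : ((X : Set ℝ) : Type) → ℝ) by
      rw [DenseRange, Subtype.range_coe]; exact hXd).dense_image continuous_subtype_val hEd
  have h0 : (0 : ℝ) ∈ (X : Set ℝ) := X.zero_mem
  obtain ⟨c, hc, hc1, hc2⟩ := hE.exists_between (show (-1 : ℝ) < 0 by norm_num)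
  refine ⟨insert 0 (Subtype.val '' E), ?_, (hEc.image _).insert _, hE.mono (subset_insert _ _),
    ⟨0, mem_insert _ _⟩, ⟨c, mem_insert_of_mem _ hc⟩, rfl, hc2, ⟨⟨_, ⟨?_, ?_⟩, Finset.Subset.refl _⟩⟩⟩
  · rintro x (rfl | ⟨y, -, rfl⟩)
    · exact h0
    · exact y.2
  · intro u hu
    simp only [Finset.mem_insert, Finset.mem_singleton] at hu
    rcases hu with rfl | rfl
    · exact le_rfl
    · exact le_rfl
  · have hb : Before (D := insert 0 (Subtype.val '' E)) (0, 0, ⟨0, mem_insert _ _⟩)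
        (1, 1, ⟨c, mem_insert_of_mem _ hc⟩) := by
      refine ⟨?_, ?_, ?_⟩
      · show ((0 : ℚ) : ℝ) < ((1 : ℚ) : ℝ)
        simp
      · show c < 0
        exact hc2
      · show ((0 : ℚ) : ℝ) + 0 < ((1 : ℚ) : ℝ) + c
        simp only [Rat.cast_zero, Rat.cast_one]
        linarith
    intro u hu v hv
    simp only [Finset.mem_insert, Finset.mem_singleton] at hu hv
    rcases hu with rfl | rfl <;> rcases hv with rfl | rfl
    · exact Or.inl rfl
    · exact Or.inr (Or.inl hb)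
    · exact Or.inr (Or.inr hb)
    · exact Or.inl rfl

instance {D : Set ℝ} [Countable D] (p₀ : Finset (T D)) : Countable (PP p₀) :=
  inferInstanceAs (Countable {p : Finset (T D) // Cond p ∧ p₀ ⊆ p})

/-- Dense subgroups of size less than `cov(M)` are not plastic. -/
theorem not_plastic_of_covM (X : AddSubgroup ℝ) (hXd : Dense (X : Set ℝ)) (h : LtCovM X) :
    ¬ Plastic ((X : Set ℝ) : Type) := by
  obtain ⟨D, hDX, hDc, hDd, c₀, c₁, hc₀, hc₁, hne⟩ := exists_start X hXd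
  have : Countable D := hDc.to_subtype
  -- one family suffices: first meet `Dx`, then `Dy`
  obtain ⟨c, hc, hcm⟩ := exists_chain h (PP ({(0, 0, c₀), (1, 1, c₁)} : Finset (T D)))
    (fun x => {p | p ∈ Dx _ (x : ℝ) ∧ p ∈ Dy _ (x : ℝ)}) (by
      intro x p
      obtain ⟨q, ⟨u, hu, hu'⟩, hqp⟩ := Dx_dense hDd (x : ℝ) p
      obtain ⟨r, hr, hrq⟩ := Dy_dense hDd (x : ℝ) q
      exact ⟨r, ⟨⟨u, hrq hu, hu'⟩, hr⟩, hrq.trans hqp⟩)
  refine not_plastic_of_generic X hDX hXd c₀ c₁ hc₀ hc₁ (range c) ?_ ?_ ?_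
  · rintro _ ⟨m, rfl⟩ _ ⟨n, rfl⟩
    exact ⟨c (max m n), ⟨_, rfl⟩, hc (le_max_left _ _), hc (le_max_right _ _)⟩
  · intro x
    obtain ⟨n, hn⟩ := hcm x
    exact ⟨c n, ⟨n, rfl⟩, hn.1⟩
  · intro x
    obtain ⟨n, hn⟩ := hcm x
    exact ⟨c n, ⟨n, rfl⟩, hn.2⟩

/-- Under Martin's axiom for `ℵ₁` dense sets, `ℵ₁`-dense subgroups are not plastic. -/
theorem not_plastic_of_MA1 (hMA : Pool.Agent.Helper647.FU.MA1) (X : AddSubgroup ℝ)
    (hX : AlephOneDense (X : Set ℝ)) : ¬ Plastic ((X : Set ℝ) : Type) := by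
  have hXd : Dense (X : Set ℝ) := by
    rw [dense_iff_inter_open]
    intro U hU hUne
    have := hX U hU hUne
    rw [inter_comm]
    by_contra hcon
    rw [not_nonempty_iff_eq_empty] at hcon
    rw [hcon] at this
    simp at this
    exact absurd this.symm (Cardinal.aleph_pos 1).ne'
  obtain ⟨D, hDX, hDc, hDd, c₀, c₁, hc₀, hc₁, hne⟩ := exists_start X hXd
  have : Countable D := hDc.to_subtype
  have hcard : #((X : Set ℝ) : Type) = Cardinal.aleph 1 := by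
    have := hX Set.univ isOpen_univ univ_nonempty
    rwa [inter_univ] at this
  obtain ⟨G, hG1, hG2, hG3, hG4⟩ := hMA (PP ({(0, 0, c₀), (1, 1, c₁)} : Finset (T D)))
    (fun A _ => A.to_countable)
    (range (fun x : (X : Set ℝ) => {p | p ∈ Dx _ (x : ℝ) ∧ p ∈ Dy _ (x : ℝ)}))
    (Cardinal.mk_range_le.trans hcard.le) (by
      rintro _ ⟨x, rfl⟩ p
      obtain ⟨q, ⟨u, hu, hu'⟩, hqp⟩ := Dx_dense hDd (x : ℝ) p
      obtain ⟨r, hr, hrq⟩ := Dy_dense hDd (x : ℝ) q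
      exact ⟨r, ⟨⟨u, hrq hu, hu'⟩, hr⟩, hrq.trans hqp⟩)
  refine not_plastic_of_generic X hDX hXd c₀ c₁ hc₀ hc₁ G hG3 ?_ ?_
  · intro x
    obtain ⟨p, hp, hp'⟩ := hG4 _ ⟨x, rfl⟩
    exact ⟨p, hp, hp'.1⟩
  · intro x
    obtain ⟨p, hp, hp'⟩ := hG4 _ ⟨x, rfl⟩
    exact ⟨p, hp, hp'.2⟩

/-- **Theorem.** (1) Under PFA no `ℵ₁`-dense subgroup of the reals is plastic.
(2) In ZFC, no dense subgroup `X` of the reals with `|X| < cov(M)` is plastic. -/
theorem result :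
    (Pool.Agent.Helper647.FU.PFA →
      ∀ X : AddSubgroup ℝ, AlephOneDense (X : Set ℝ) → ¬ Plastic ((X : Set ℝ) : Type)) ∧
    ∀ X : AddSubgroup ℝ, Dense (X : Set ℝ) → LtCovM X → ¬ Plastic ((X : Set ℝ) : Type) :=
  ⟨fun h X hX => not_plastic_of_MA1 (Pool.Agent.Helper647.FU.J8.MA1_of_PFA h) X hX,
    not_plastic_of_covM⟩

end Pool.Agent.Results.MP_d907e7_lc.SubgroupsNotPlastic
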